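import Pool.Agent.H839.PZ.One

/-!
# Zero-cycles on one K3 surface and finitely many graph hypersurfaces

Let `k` be a number field or `ℚ̄`, and let `X` be **one** K3 surface over `k`. Choose a smooth projective
scheme `S` of dimension two over `ℚ` such that `X` is a union of connected components of `S_k` (for a number
field `k` the scheme `X` over `ℚ`; for `k = ℚ̄` a surface over a number field which defines `X`). The question
Q1 for `X` is whether `CH^2(X)_0 ⊗ ℚ = 0` (`Trivial`).

For a smooth projective scheme `Y` over `ℚ` let `B^m(Y)` be the subspace of `CH^m(Y_k)_ℚ` generated by the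
cycles `c_* z`, for the cycles `c` of codimension `m` on `S_k × Y_k` and for `z` in
`CH^2(X)_0 ⊗ ℚ ⊆ CH^2(S_k)_ℚ`. It is an additive functor of the Chow motive of `Y_k`, and it is zero if and
only if all `c_* z` are zero (`Killed`). For a separated scheme `Z` of finite type over `ℚ` let `W(Z)` be
the weight complex of `Z_k` (Gillet, Soulé; a complex of Chow motives for the cohomology with compact
supports; `W(Z) = h(Z_k)` for smooth projective `Z`), and put `B^{m,i}(Z) = H^i(B^m(W(Z)))`,
`A^{m,i}(Z) = 0`. `BijAll C Z` says that the maps `A^{m,i}(Z) → B^{m,i}(Z)` are isomorphisms, that is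
`B^{m,i}(Z) = 0`, for all `m` and `i`. (These data are the ones of the library result `FinitelyManyCubics` of
this problem, where the same is done with cubic hypersurfaces `T(x, y, z) = 1`.)

For a finite graph `G` let `Y_G` be the complement of its graph hypersurface, that is the open subscheme
of the affine space over `ℚ` of the edge weights where the Kirchhoff polynomial (the weighted number of the
spanning trees, the determinant of the reduced Laplace matrix) is not zero.

**Theorem.** For each `S` there is a finite list `L` of finite simple graphs of maximal degree at most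
three, which depends only on `S`, such that `CH^2(X)_0 ⊗ ℚ` is zero if and only if `B^{m,i}(Y_G) = 0` for all
`m` and `i` and the finitely many graphs `G` in `L`. If it is zero, `B^{m,i}(Y_G) = 0` for all finite graphs
`G` of maximal degree at most three.
-/

set_option autoImplicit false

open CategoryTheory CategoryTheory.Limits AlgebraicGeometry Pool.Agent.Y116.UV Pool.Agent.Z125.UN
  Pool.Agent.Q193.LT Pool.Agent.Q49.WU Pool.Agent.Q68.OV Pool.Agent.H839.PZ

universe w u

namespace Pool.Agent.Results.MP_9207e0_ag.FinitelyManyGraphs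

/-- The Chow groups of the schemes `Y_k`, and the zero-cycles of degree zero on a K3 surface `X`, a union
of connected components of `S_k`. -/
structure ChowData (S : Sch ℚ) where
  /-- `CH^m(Y_k)_ℚ` -/
  CH : ℤ → Sch ℚ → ModuleCat.{w} ℚ
  /-- the cycles of codimension `m` on `S_k × Y_k` -/
  Cyc : ℤ → Sch ℚ → Type u
  /-- the operation `c_*` of the cycle `c` -/
  act : ∀ {m : ℤ} {Y : Sch ℚ}, Cyc m Y → CH 2 S →ₗ[ℚ] CH m Y
  /-- the diagonal of `S_k × S_k` -/
  diag : Cyc 2 S
  /-- `CH^2(X)_0 ⊗ ℚ`, in `CH^2(S_k)_ℚ` -/
  zero : Submodule ℚ (CH 2 S)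

/-- The diagonal operates as the identity. -/
def IsChow {S : Sch ℚ} (D : ChowData.{w, u} S) : Prop := ∀ x, D.act D.diag x = x

/-- The statement of Q1 for `X`: `CH^2(X)_0 ⊗ ℚ = 0`. -/
def Trivial {S : Sch ℚ} (D : ChowData.{w, u} S) : Prop := D.zero = ⊥

/-- All images of the zero-cycles of degree zero on `X` in `CH^m(Y_k)_ℚ` are zero. -/
def Killed {S : Sch ℚ} (D : ChowData.{w, u} S) (m : ℤ) (Y : Sch ℚ) : Prop :=
  ∀ c : D.Cyc m Y, ∀ x ∈ D.zero, D.act c x = 0

/-- **Zero-cycles on one K3 surface and finitely many graph hypersurfaces.** See the explanations above;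
`points` is the case of dimension zero (zero-cycles of degree zero on a K3 surface have image zero in the
Chow groups of a point). -/
theorem result {S : Sch ℚ} (hS : SmoothProj S) :
    ∃ L : List Gph, ∀ (D : ChowData.{w, u} S) (C : PairData.{w} ℚ (ℤ × ℤ) ℚ), IsChow D →
      IsWeightPair C → WeightGen C →
      (∀ Y, SmoothProj Y → ∀ m, (BijAt C Prod.fst m Y ↔ Killed D m Y)) →
      (points : ∀ Y : Sch ℚ, SmoothProj Y → topologicalKrullDim Y.left ≤ (0 : ℕ) → BijAll C Y) →
      (Trivial D ↔ ∀ g ∈ L, BijAll C (g.co ℚ)) ∧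
      (Trivial D → ∀ g : Gph, BijAll C (g.co ℚ)) := by
  obtain ⟨N, G, h⟩ := reach_kirch.{w, 0, u} hS 2
  refine ⟨G, fun D C hD hC hg bij points => ?_⟩
  let R : Reach.{w, 0, u} ℚ ℚ S 2 :=
    { H := D.CH, A := fun _ _ => ⊥, Corr := D.Cyc, act := D.act, one := D.diag,
      J := {x | x ∈ D.zero} }
  have hR : IsReach R := by
    refine ⟨fun m Y _ c x hx => ?_, hD⟩
    have h0 : x = 0 := hx
    rw [h0, map_zero]
    exact Submodule.zero_mem _
  have hB : Trivial D ↔ Holds R := (Submodule.eq_bot_iff _)
  obtain ⟨_, h2, h3⟩ := h ℚ R C hR hC hg bij (point_of_zero hg points)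
  exact ⟨hB.trans (h2 frac_rat), fun hb => (h3 (hB.mp hb)).2⟩

end Pool.Agent.Results.MP_9207e0_ag.FinitelyManyGraphs
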