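import Pool.Agent.H834.K4.Fam

/-!
# Zero-cycles on two families of K3 surfaces over the algebraic numbers: infinite-dimensional kernels

Let `k` be an algebraic closure of `ℚ`. We consider the surfaces `(E × D) / G` where `E` is an
elliptic curve with an automorphism of order four or six, `D` is a hyperelliptic curve of genus three
or four with an automorphism of the same order and `G` is the cyclic group which acts diagonally:

1. `E : y² = x³ - x`, `D : y'² = (x'³ - x') (x'² - c) (x'² - d)`,
   `ρ(x, y) = (-x, i y)`, `ρ'(x', y') = (-x', i y')`;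
2. `E : y² = x³ + 1`, `D : y'² = (x'³ + 1) (x'³ - c) (x'³ - d)`,
   `ρ(x, y) = (ω x, -y)`, `ρ'(x', y') = (ω x', -y')`.

The minimal resolutions `X` are K3 surfaces: the elliptic fibrations
`Y² = X³ - t (t - 1)² (t - c)² (t - d)² X` and `Y² = X³ + t² (t + 1)³ (t - c)³ (t - d)³` over the
line, with the singular fibres `III, I₀*, I₀*, I₀*, III` and `IV, I₀*, I₀*, I₀*, II`. They form two
families of dimension two, and the Picard number is at least `16`; the very general members have
Picard number `16`, so that they are not Kummer surfaces.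

By the conjecture of Bloch and Beilinson all points of `X` have the same class in `CH_0(X) ⊗ ℚ`. For
a point `P` of `E` the image of `{P} × D` is a curve in `X`, and the push-forward of zero-cycles
induces a map from `J(D) ⊗ ℚ` to `CH_0(X) ⊗ ℚ`. More generally there is the map `push α` for every
class `α` in `Pic(E) ⊗ ℚ`, which takes `β` to the image of the exterior product `α × β`.

**Theorem.** For each of these surfaces and for every class `α` in `Pic(E) ⊗ ℚ`, the classes `β` in
`J(D)(k) ⊗ ℚ` whose image in `CH_0(X) ⊗ ℚ` is zero form a space of infinite dimension. In particular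
this holds for every curve `{P} × D`.

Idea of the proof. The curve of the pairs `(P, Q)` with `x(P) = x'(Q)` has a rational image in `X`,
and it follows that `(P - O) × (Q - W)` is zero for these pairs. For a given `P` one takes the
points `Q` with `x'(Q) = x(2^n P)`. If they generate a space of finite dimension then, by Galois
theory, almost all of them are defined over a number field or have a torsion class `Q - W`. The first
happens for finitely many points only by Faltings' theorem, and the second by a descent and Faltings'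
theorem for other curves.

The curves are given by their function fields `K`, `L`, their points are the places, and zero-cycles
on the product which are rationally equivalent to zero are spanned by the push-forwards of the
divisors of functions on smooth projective curves.
-/

set_option autoImplicit false

namespace Pool.Agent.Results.MP_9207e0_ag.IsotrivialK3Surfaces

open FF Polynomial Pool.Agent.Q70.CH Pool.Agent.Q70.KM Pool.Agent.H834.E Pool.Agent.H834.K4

section

variable {k : Type} [Field k] [CharZero k] {K : Type} [Field K] [Algebra k K]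
  {L : Type} [Field L] [Algebra k L]

/-- `CH_0(X) ⊗ ℚ` for the quotient `X` of `E × D` by the group generated by `(ρ, ρ')`: the quotient
of `CH_0(E × D) ⊗ ℚ` by the span of the differences `[(ρ P, ρ' Q)] - [(P, Q)]`. -/
abbrev CHX (ρ : K ≃ₐ[k] K) (ρ' : L ≃ₐ[k] L) : Type :=
  CH0 k K L ⧸ Submodule.span ℚ (Set.range fun z : Place k K × Place k L =>
    cl2 (Finsupp.single (z.1.comp ρ, z.2.comp ρ') 1) - cl2 (Finsupp.single z 1))

/-- The map which takes `β` to the image of `α × β` in `CH_0(X) ⊗ ℚ`. -/
noncomputable def push (ρ : K ≃ₐ[k] K) (ρ' : L ≃ₐ[k] L) (α : PicQ k K) :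
    PicQ k L →ₗ[ℚ] CHX ρ ρ' :=
  (Submodule.mkQ _).comp (times α)

/-- The classes of degree zero on `D` in the kernel of `push α`. -/
noncomputable def kernel (ρ : K ≃ₐ[k] K) (ρ' : L ≃ₐ[k] L) (α : PicQ k K) :
    Submodule ℚ (PicQ k L) :=
  Pic0 k L ⊓ LinearMap.ker (push ρ ρ' α)

lemma kernel_eq (ρ : K ≃ₐ[k] K) (ρ' : L ≃ₐ[k] L) (α : PicQ k K) :
    kernel ρ ρ' α = annN (relG ρ ρ') α := by
  unfold kernel annN push relG
  ext β
  simp only [Submodule.mem_inf, LinearMap.mem_ker, Submodule.mem_comap, LinearMap.comp_apply]
  exact and_congr_right fun _ => Submodule.Quotient.mk_eq_zero _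

end

/-- **Two families of K3 surfaces.** -/
theorem result (k : Type) [Field k] [CharZero k] [IsAlgClosed k] [Algebra.IsAlgebraic ℚ k]
    (c d : k) (K : Type) [Field K] [Algebra k K] [IsFF k K] (x y : K)
    (L : Type) [Field L] [Algebra k L] [IsFF k L] (x' y' : L)
    (ρ : K ≃ₐ[k] K) (ρ' : L ≃ₐ[k] L) :
    (∀ i : k, i ^ 2 = -1 → ((X ^ 3 - X) * (X ^ 2 - C c) * (X ^ 2 - C d) : k[X]).Separable →
      Dbl k (X ^ 3 - X) x y → Dbl k ((X ^ 3 - X) * (X ^ 2 - C c) * (X ^ 2 - C d)) x' y' →
      ρ x = -x → ρ y = algebraMap k K i * y → ρ' x' = -x' → ρ' y' = algebraMap k L i * y' →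
      ∀ α : PicQ k K, ¬ FiniteDimensional ℚ (kernel ρ ρ' α)) ∧
    (∀ ω : k, ω ^ 2 + ω + 1 = 0 → ((X ^ 3 + 1) * (X ^ 3 - C c) * (X ^ 3 - C d) : k[X]).Separable →
      Dbl k (X ^ 3 + 1) x y → Dbl k ((X ^ 3 + 1) * (X ^ 3 - C c) * (X ^ 3 - C d)) x' y' →
      ρ x = algebraMap k K ω * x → ρ y = -y → ρ' x' = algebraMap k L ω * x' → ρ' y' = -y' →
      ∀ α : PicQ k K, ¬ FiniteDimensional ℚ (kernel ρ ρ' α)) := by
  refine ⟨fun i hi hsep hK hL hx hy hx' hy' α => ?_, fun ω hω hsep hK hL hx hy hx' hy' α => ?_⟩
  · rw [kernel_eq]
    exact main_four hi hsep hK hL hx hy hx' hy' α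
  · rw [kernel_eq]
    exact main_six hω hsep hK hL hx hy hx' hy' α

end Pool.Agent.Results.MP_9207e0_ag.IsotrivialK3Surfaces
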