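import Pool.Agent.H834.KJ.Main

/-!
# Zero-cycles on the Kummer surface of the Jacobian of a curve of genus two over the algebraic
numbers: infinite-dimensional kernels

Let `k` be an algebraic closure of `ℚ` and let `C` be a smooth projective curve of genus two over
`k`, with its hyperelliptic involution `σ` and one of its six Weierstrass points `W`. The Kummer
surface `X` of the Jacobian `J` of `C` is a K3 surface; it is birational to `S = (C × C) / G`, where
`G` is generated by the exchange of the factors and `σ × σ`: the image of `(P, Q)` corresponds to
the image of the point `P + Q - 2 W` of `J`. By the conjecture of Bloch and Beilinson all points of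
`X` have the same class in `CH_0(X) ⊗ ℚ`.

The class of the image of the point `γ` of `J`, minus the class `c_X`, is `bil(γ, γ) / 2` for a
symmetric bilinear map `bil` from `J(k) ⊗ ℚ = Pic⁰(C) ⊗ ℚ` to `CH_0(X) ⊗ ℚ` (with
`bil(P - W, Q - W) = [(P, Q)] - [(W, W)]`). Hence `[α + β] - [α - β] = 2 bil(α, β)`. The
conjecture says that `bil = 0`; before, `bil(γ, γ) = 0` is known for the points `γ` with a multiple
in the curve `{P - W}` (the points `γ` whose image lies on certain rational curves).

**Theorem.** Let `α ≠ 0` be in `J(k) ⊗ ℚ`.

1. If `α` is not a rational multiple of the class `P - W` of a point `P` of `C`, then the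
   classes `β` for which both `α + β` and `α - β` are rational multiples of such classes, so that
   `[α + β] = [α - β] = c_X`, span a space of infinite dimension. For all of them `bil(α, β) = 0` and
   `bil(β, β) = - bil(α, α)`. In particular the kernel of `bil(α, ·)` on `J(k) ⊗ ℚ` has infinite
   dimension.
2. The same is true for all `α` for which only finitely many points `P` of `C` have a class `P - W`
   which is a nonzero rational multiple of `α`. (If `α` is as in 1 there is no such point. For the
   other `α` this is the theorem of Mordell and Lang for `C`, which is not proved here.)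

Idea of the proof. Let `a` be a multiple of `α` in `J(k)`. For all `n` we have `n a = P + Q - 2 W`
for a pair of points `P = P_n`, `Q = Q_n` which is unique; let `β_n = (P_n - Q_n) / n`. Assume that
these classes span a space of finite dimension. Then they are all fixed by the Galois group of a
number field `F`, over which the curve and `a` are defined. By Faltings' theorem only finitely many
of the points `P_n`, `Q_n` are defined over `F`. If `P_n` is not, then an element of the Galois
group moves it, to `Q_n` by the uniqueness, and maps `β_n` to `- β_n`. So `β_n = 0`, and `α` is a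
multiple of `P_n - W`.

The curve is given by its function field `K`, its points are the places of `K`, and zero-cycles
rationally equivalent to zero are spanned by the push-forwards of the divisors of functions on smooth
projective curves.
-/

set_option autoImplicit false

namespace Pool.Agent.Results.MP_9207e0_ag.MidpointsOnKummerSurfaces

open FF Pool.Agent.Q70.CH Pool.Agent.Q70.KM Pool.Agent.H834.KJ Pool.Agent.H834.E Module

section

variable {k : Type} [Field k] [CharZero k] [IsAlgClosed k] {K : Type} [Field K] [Algebra k K]

/-- The kernel of `bil(α, ·)` on the classes of degree zero. -/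
noncomputable def kernel (σ : K ≃ₐ[k] K) (W : Place k K) (α : PicQ k K) :
    Submodule ℚ (PicQ k K) :=
  Pic0 k K ⊓ LinearMap.ker (bil σ W α)

/-- The set `Mid W α` spans a space of infinite dimension, and the kernel of `bil(α, ·)` has
infinite dimension. -/
def InfiniteDim (σ : K ≃ₐ[k] K) (W : Place k K) (α : PicQ k K) : Prop :=
  ¬ FiniteDimensional ℚ (Submodule.span ℚ (Mid W α)) ∧ ¬ FiniteDimensional ℚ (kernel σ W α)

/-- The points `P` of the curve for which `P - W` is a nonzero rational multiple of `α`. -/
def multiples (W : Place k K) (α : PicQ k K) : Set (Place k K) :=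
  {P | ∃ c : ℚ, c ≠ 0 ∧ dif W P = c • α}

end

/-- **Midpoints on Kummer surfaces.** `K` is the function field of a curve `C` of genus two over the
algebraic closure `k` of `ℚ`, `σ` the hyperelliptic involution, `W` a Weierstrass point. -/
theorem result {k : Type} [Field k] [CharZero k] [IsAlgClosed k] [Algebra.IsAlgebraic ℚ k]
    {K : Type} [Field K] [Algebra k K] [IsFF k K] (hg : IsGenus k K 2) (σ : K ≃ₐ[k] K)
    (W : Place k K) (hσ : Hyperelliptic σ W) (α : PicQ k K) (hα : α ∈ Pic0 k K) (hα0 : α ≠ 0) :
    (∀ β ∈ Mid W α, bil σ W α β = 0 ∧ bil σ W β β = - bil σ W α α) ∧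
    ((∀ (c : ℚ) (P : Place k K), α ≠ c • dif W P) → InfiniteDim σ W α) ∧
    ((multiples W α).Finite → InfiniteDim σ W α) := by
  have key : (multiples W α).Finite → InfiniteDim σ W α := by
    intro hX
    have h1 := main hg hσ hα hα0 hX
    refine ⟨h1, fun h2 => h1 ?_⟩
    have hle : Submodule.span ℚ (Mid W α) ≤ kernel σ W α := by
      rw [Submodule.span_le]
      intro β hβ
      exact ⟨mid_sub hβ, LinearMap.mem_ker.2 (bil_of_mid hσ hβ).1⟩
    exact Submodule.finiteDimensional_of_le hle
  refine ⟨fun β hβ => bil_of_mid hσ hβ, fun hC => key ?_, key⟩
  have hempty : multiples W α = ∅ := by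
    rw [Set.eq_empty_iff_forall_notMem]
    rintro P ⟨c, hc, h1⟩
    apply hC c⁻¹ P
    rw [h1, smul_smul, inv_mul_cancel₀ hc, one_smul]
  rw [hempty]
  exact Set.finite_empty

end Pool.Agent.Results.MP_9207e0_ag.MidpointsOnKummerSurfaces
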