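import Pool.Agent.H837.QB.North3

/-!
# Rational equivalences between algebraic points: a Northcott property

No hypothesis is assumed. Let `X` be a projective variety over the field `ℚ̄` of algebraic numbers, for
example a K3 surface, and `x₀` an algebraic point of `X`. A rational equivalence has a *complexity*, a
natural number: `[x]` and `[y]` are rationally equivalent with complexity at most `b` if for a zero-cycle
`w` of degree `b` the zero-cycles `[x] + w` and `[y] + w` are the values at `0` and `∞` of a family of
degree `b` of effective zero-cycles, parametrized by the projective line (`RatEq`). Let `dist x y` be the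
least such number, `∞` if the points are not rationally equivalent.

**Theorem A** (points). Let `b` be any number.

1. There are finitely many irreducible closed subvarieties (defined over `ℚ̄`) of the chart `x a = 1` of `X`,
   all of whose complex points are rationally equivalent to `x₀`, such that each algebraic point `x` of the
   chart with `dist x x₀ ≤ b` lies on one of them.
2. (Northcott property) The algebraic points `x` of the chart with `dist x x₀ ≤ b` which lie on no
   irreducible closed subvariety of positive dimension of the chart all of whose complex points are
   rationally equivalent to `x₀`, are finite in number.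

**Application to the question.** Let `X` be a K3 surface over `ℚ̄` and `x₀` a point on a rational curve of
`X`. By the theorem of Mumford not all complex points are rationally equivalent to `x₀`; so the
subvarieties of positive dimension in the theorem are *constant cycle curves* with the class `c_X`
(Beauville-Voisin, Huybrechts). The conjecture of Bloch and Beilinson, `CH²(X)_0 = 0`, says that `dist x x₀`
is finite for all algebraic points `x`. The theorem says that outside the constant cycle curves only
finitely many algebraic points `x` - points of all number fields are allowed - satisfy `dist x x₀ ≤ b`. If
`X` and `x₀` are defined over a number field `k`, then this finite set is stable under the Galois group;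
so the degree `[k(x) : k]` and the height of `x` are bounded in terms of `dist x x₀`. According to the
conjecture the complement of the constant cycle curves in `X(ℚ̄)` is therefore an increasing union of
*finite* Galois stable sets, the sets `dist x x₀ ≤ b`, while for `X(ℂ)` the analogous union is countable and
not everything; and for any infinite sequence of algebraic points outside the constant cycle curves, for
example in `X(k)`, the rational equivalences, which should exist, have complexities tending to infinity.

**Theorem B** (families). Let `f i`, `g i`, `i ≤ n`, be vectors of polynomials on an affine variety `T` over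
`ℚ̄` which give morphisms from `T` to `X`, and let `Level b` be the set of the points `t` of `T` (algebraic or
complex) such that the zero-cycles `∑ [f i (t)]` and `∑ [g i (t)]` have a rational equivalence of complexity
at most `b`.

1. The complex points in `Level b` are in the Zariski closure of the algebraic points in `Level b`, and the
   complex points of this closure are in `Level b'`, for some number `b'`. So the complex points `t` at which
   the two zero-cycles are rationally equivalent are those of a countable increasing union of closed
   subvarieties of `T` over `ℚ̄`, on each of which the complexity is bounded.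
2. There are finitely many irreducible closed subvarieties of `T` over `ℚ̄` at all complex points of which the
   zero-cycles are rationally equivalent, such that each algebraic point of `Level b` lies on one of them.
3. The algebraic points in `Level b` which lie on no such subvariety of positive dimension are finite in
   number.

For instance for `T = X × X` (or rather its affine charts) and the two projections: outside the
positive-dimensional families of pairs of rationally equivalent points only finitely many pairs of
algebraic points have a rational equivalence of complexity at most `b`.

## The proof

Let `A` be any set of algebraic points of `T` with complexity at most `b`, and let the complex point `t'` be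
in the Zariski closure of `A` over `ℚ̄`. The polynomials over `ℚ̄` which do not vanish at `t'` form a
multiplicative set, and none of them vanishes on `A`. So there is a sequence of points of `A` such that each
of these countably many polynomials is different from zero at almost all points of the sequence. The
sequence gives a point `t` of the ultrapower of `ℚ̄`, which is isomorphic to `ℂ` over `ℚ̄`; at `t` the complexity
is at most `b` by the theorem of Łoś, and `t'` is a specialisation of `t` over `ℚ̄`. Rational equivalence is
stable under specialisation (library, seat Y148), so the zero-cycles at `t'` are rationally equivalent. By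
another ultrapower argument the complexity is bounded on the closure. The closure of the algebraic points
in `Level b` has finitely many irreducible components; those of dimension zero are points.
-/

set_option autoImplicit false

namespace Pool.Agent.Results.MP_9207e0_ag.NorthcottProperty

open MvPolynomial Pool.Agent.H837.UF Pool.Agent.H837.QB

/-- **Only finitely many algebraic points outside the constant cycle subvarieties are rationally
equivalent to a given point with complexity at most `b`.** -/
theorem result (e : Qb →+* ℂ) (r : ℕ) :
    (∀ S : Finset (MvPolynomial (Fin (r + 1)) Qb), (∀ P ∈ S, ∃ d : ℕ, P.IsHomogeneous d) →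
      ∀ x₀ ∈ Cone S (RingHom.id Qb), ∀ (a : Fin (r + 1)) (b : ℕ),
        (∃ 𝒬 : Set (Ideal (MvPolynomial (Fin (r + 1)) Qb)), 𝒬.Finite ∧
          (∀ 𝔭 ∈ 𝒬, IsConstantCycle S e x₀ a 𝔭) ∧
          ∀ x ∈ Cone S (RingHom.id Qb), x a = 1 → dist S x x₀ ≤ b →
            ∃ 𝔭 ∈ 𝒬, ∀ P ∈ 𝔭, eval x P = 0) ∧
        {x ∈ Cone S (RingHom.id Qb) | x a = 1 ∧ dist S x x₀ ≤ b ∧
          ¬ ∃ 𝔭 : Ideal (MvPolynomial (Fin (r + 1)) Qb),
            IsConstantCycle S e x₀ a 𝔭 ∧ ¬ 𝔭.IsMaximal ∧ ∀ P ∈ 𝔭, eval x P = 0}.Finite) ∧
    ∀ (q n : ℕ) (Φ : Family Qb r q n), IsPairFamily Φ → ∀ b : ℕ,
      (∃ b' : ℕ, ∀ t : Fin q → ℂ,
        (t ∈ Φ.Level e b → InClosure e (Φ.Level (RingHom.id Qb) b) t) ∧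
        (InClosure e (Φ.Level (RingHom.id Qb) b) t → t ∈ Φ.Level e b')) ∧
      (∃ 𝒬 : Set (Ideal (MvPolynomial (Fin q) Qb)), 𝒬.Finite ∧
        (∀ 𝔭 ∈ 𝒬, ConstantCycle Φ e 𝔭) ∧
        ∀ t ∈ Φ.Level (RingHom.id Qb) b, ∃ 𝔭 ∈ 𝒬, ∀ P ∈ 𝔭, eval t P = 0) ∧
      {t ∈ Φ.Level (RingHom.id Qb) b | ¬ ∃ 𝔭 : Ideal (MvPolynomial (Fin q) Qb),
        ConstantCycle Φ e 𝔭 ∧ ¬ 𝔭.IsMaximal ∧ ∀ P ∈ 𝔭, eval t P = 0}.Finite :=
  ⟨fun _ hS _ hx₀ a b => points e hS hx₀ a b, fun _ _ Φ h b => levels e Φ h b⟩

end Pool.Agent.Results.MP_9207e0_ag.NorthcottProperty
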